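import Mathlib

/-!
# MP_72c4d1_al : panmagic cosets of the lifted dihedral group

For odd `n`, every coset `σ D` of the lifted dihedral group `D` that is closed under `N`-fold
products for some `N ≥ 2` is a coset of an affine permutation.
-/

namespace Pool.Agent.Results.MP_72c4d1_al.NaryCosetsAffine

/-- The permutation `σ` of `ZMod n` is affine. -/
def IsAffine {n : ℕ} (σ : Equiv.Perm (ZMod n)) : Prop :=
  ∃ (a : (ZMod n)ˣ) (b : ZMod n), ∀ x, σ x = a * x + b

/-- The product of the distinct primes dividing `n`. -/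
def rad (n : ℕ) : ℕ := ∏ p ∈ n.primeFactors, p

/-- The lifted dihedral group, as a set of permutations of `ZMod n`: the maps `x ↦ u x + b` with
`u` a unit and `u ^ 2 ≡ 1` modulo the radical of `n`. -/
def liftedDihedral (n : ℕ) : Set (Equiv.Perm (ZMod n)) :=
  {π | ∃ (u : (ZMod n)ˣ) (b : ZMod n), (u : ZMod n).val ^ 2 ≡ 1 [MOD rad n] ∧
    ∀ x, π x = u * x + b}

/-- The left coset `σ D` of the lifted dihedral group. -/
def leftCoset {n : ℕ} (σ : Equiv.Perm (ZMod n)) : Set (Equiv.Perm (ZMod n)) :=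
  {τ | ∃ π ∈ liftedDihedral n, τ = σ * π}

/-- A set of permutations is closed under products of `N` of its elements. -/
def ClosedUnderProducts {n : ℕ} (N : ℕ) (S : Set (Equiv.Perm (ZMod n))) : Prop :=
  ∀ l : List (Equiv.Perm (ZMod n)), l.length = N → (∀ τ ∈ l, τ ∈ S) → l.prod ∈ S

theorem cast_sq {n m : ℕ} [NeZero n] (h : m ∣ n) (x : ZMod n) :
    x.val ^ 2 ≡ 1 [MOD m] ↔ (ZMod.castHom h (ZMod m) x) ^ 2 = 1 := by
  have h1 : (ZMod.castHom h (ZMod m) x) = ((x.val : ℕ) : ZMod m) := by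
    rw [ZMod.castHom_apply, ZMod.natCast_val]
  rw [h1, ← ZMod.natCast_eq_natCast_iff]
  push_cast
  rfl

theorem rad_dvd (n : ℕ) : rad n ∣ n := Nat.prod_primeFactors_dvd n

theorem dvd_rad {n p : ℕ} (hn : n ≠ 0) (hp : p.Prime) (h : p ∣ n) : p ∣ rad n :=
  Finset.dvd_prod_of_mem _ (Nat.mem_primeFactors.2 ⟨hp, h, hn⟩)

/-- Conjugates of elements of `D` by `σ` act affinely, with squares of the linear part `1` modulo
each prime divisor of `n`. -/
theorem conj_affine {n : ℕ} [NeZero n] (σ : Equiv.Perm (ZMod n)) (N : ℕ) (hN : 2 ≤ N)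
    (hcl : ClosedUnderProducts N (leftCoset σ)) (h : Equiv.Perm (ZMod n))
    (hh : h ∈ liftedDihedral n) :
    ∃ (u : (ZMod n)ˣ) (b : ZMod n), (∀ (p : ℕ) (hp : p.Prime) (hpn : p ∣ n),
      (ZMod.castHom hpn (ZMod p) (u : ZMod n)) ^ 2 = 1) ∧ ∀ x, σ (h x) = u * σ x + b := by
  have hone : (1 : Equiv.Perm (ZMod n)) ∈ liftedDihedral n := by
    refine ⟨1, 0, ?_, fun x => by simp⟩
    rw [cast_sq (rad_dvd n), Units.val_one, map_one, one_pow]
  have hmem : ∀ g ∈ liftedDihedral n, σ * g * σ ^ (N - 2) ∈ liftedDihedral n := by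
    intro g hg
    have h1 := hcl (σ :: (σ * g) :: List.replicate (N - 2) σ)
      (by simp only [List.length_cons, List.length_replicate]; omega) (by
        intro τ hτ
        rw [List.mem_cons, List.mem_cons] at hτ
        rcases hτ with rfl | rfl | hτ
        · exact ⟨1, hone, by simp⟩
        · exact ⟨g, hg, rfl⟩
        · rw [List.eq_of_mem_replicate hτ]
          exact ⟨1, hone, by simp⟩)
    obtain ⟨π, hπ, h2⟩ := h1
    rw [List.prod_cons, List.prod_cons, List.prod_replicate] at h2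
    have h3 := mul_left_cancel h2
    rw [h3]
    exact hπ
  obtain ⟨a, c, ha, hA⟩ := hmem h hh
  obtain ⟨b, d, hb, hB⟩ := hmem 1 hone
  refine ⟨a * b⁻¹, c - a * b⁻¹ * d, ?_, ?_⟩
  · intro p hp hpn
    have hn0 : n ≠ 0 := NeZero.ne n
    have ha' := (cast_sq hpn (a : ZMod n)).1 (Nat.ModEq.of_dvd (dvd_rad hn0 hp hpn) ha)
    have hb' := (cast_sq hpn (b : ZMod n)).1 (Nat.ModEq.of_dvd (dvd_rad hn0 hp hpn) hb)
    have hbb : (ZMod.castHom hpn (ZMod p) (b : ZMod n)) *
        (ZMod.castHom hpn (ZMod p) ((b⁻¹ : (ZMod n)ˣ) : ZMod n)) = 1 := by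
      rw [← map_mul, Units.mul_inv, map_one]
    rw [Units.val_mul, map_mul, mul_pow, ha', one_mul]
    calc (ZMod.castHom hpn (ZMod p) ((b⁻¹ : (ZMod n)ˣ) : ZMod n)) ^ 2
        = (ZMod.castHom hpn (ZMod p) (b : ZMod n)) ^ 2 *
          (ZMod.castHom hpn (ZMod p) ((b⁻¹ : (ZMod n)ˣ) : ZMod n)) ^ 2 := by rw [hb', one_mul]
      _ = 1 := by rw [← mul_pow, hbb, one_pow]
  · intro x
    obtain ⟨y, rfl⟩ := (σ ^ (N - 2)).surjective x
    have h1 := hA y
    have h2 := hB y
    rw [Equiv.Perm.mul_apply, Equiv.Perm.mul_apply] at h1 h2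
    rw [Equiv.Perm.one_apply] at h2
    rw [h1, h2, Units.val_mul]
    have h3 : ((b⁻¹ : (ZMod n)ˣ) : ZMod n) * (b : ZMod n) = 1 := Units.inv_mul b
    linear_combination (-(a : ZMod n) * y) * h3

/-- For odd `n`, a coset of the lifted dihedral group closed under `N`-fold products, `N ≥ 2`,
is the coset of an affine permutation (no panmagic hypothesis and no condition at the prime
three is needed; in particular there are no non-affine panmagic `N`-ary cosets). -/
theorem result (n : ℕ) (hn : Odd n) (σ : Equiv.Perm (ZMod n)) (N : ℕ) (hN : 2 ≤ N)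
    (hcl : ClosedUnderProducts N (leftCoset σ)) : IsAffine σ := by
  have hn0 : NeZero n := ⟨by rintro rfl; exact (by decide : ¬ Odd 0) hn⟩
  -- the translation by one
  obtain ⟨u, b, hu, hub⟩ := conj_affine σ N hN hcl (Equiv.addRight 1) (by
    refine ⟨1, 1, ?_, fun x => by simp⟩
    rw [cast_sq (rad_dvd n), Units.val_one, map_one, one_pow])
  -- the negation
  obtain ⟨v, c, -, hvc⟩ := conj_affine σ N hN hcl (Equiv.neg (ZMod n)) (by
    refine ⟨-1, 0, ?_, fun x => by simp⟩
    rw [cast_sq (rad_dvd n), Units.val_neg, Units.val_one, map_neg, map_one, neg_one_sq])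
  have hub' : ∀ x, σ (x + 1) = u * σ x + b := fun x => hub x
  have hvc' : ∀ x, σ (-x) = v * σ x + c := fun x => hvc x
  -- `u ^ 2 = 1`
  have hkey : ∀ y : ZMod n, (u : ZMod n) * (v * (u * y + b) + c) + b = v * y + c := by
    intro y
    obtain ⟨x, rfl⟩ := σ.surjective y
    have h1 := hub' (-x - 1)
    rw [sub_add_cancel] at h1
    have h2 := hvc' (x + 1)
    have h3 : -(x + 1) = -x - 1 := by ring
    rw [h3] at h2
    rw [h2, hub' x, hvc' x] at h1
    exact h1.symm
  have hu2 : (u : ZMod n) ^ 2 = 1 := by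
    have h0 := hkey 0
    have h1 := hkey 1
    have h2 : (v : ZMod n) * ((u : ZMod n) ^ 2 - 1) = 0 := by linear_combination h1 - h0
    have h3 : ((v⁻¹ : (ZMod n)ˣ) : ZMod n) * (v : ZMod n) = 1 := Units.inv_mul v
    have h4 : (u : ZMod n) ^ 2 - 1 = 0 := by
      calc (u : ZMod n) ^ 2 - 1 = (((v⁻¹ : (ZMod n)ˣ) : ZMod n) * (v : ZMod n)) *
            ((u : ZMod n) ^ 2 - 1) := by rw [h3, one_mul]
        _ = ((v⁻¹ : (ZMod n)ˣ) : ZMod n) * ((v : ZMod n) * ((u : ZMod n) ^ 2 - 1)) := by ring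
        _ = 0 := by rw [h2, mul_zero]
    exact sub_eq_zero.1 h4
  -- two is nonzero modulo each prime divisor
  have htwo : ∀ (p : ℕ) (hp : p.Prime) (hpn : p ∣ n), (2 : ZMod p) ≠ 0 := by
    intro p hp hpn h
    have h1 : ((2 : ℕ) : ZMod p) = 0 := by exact_mod_cast h
    rw [ZMod.natCast_eq_zero_iff] at h1
    have h2 : p = 2 := (Nat.prime_dvd_prime_iff_eq hp Nat.prime_two).1 h1
    subst h2
    exact (Nat.not_even_iff_odd.2 hn) (even_iff_two_dvd.2 hpn)
  -- `u ≡ 1` modulo each prime divisor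
  have hu1 : ∀ (p : ℕ) (hp : p.Prime) (hpn : p ∣ n),
      ZMod.castHom hpn (ZMod p) (u : ZMod n) = 1 := by
    intro p hp hpn
    have hfact : Fact p.Prime := ⟨hp⟩
    have hsq := hu p hp hpn
    rw [sq] at hsq
    rcases mul_self_eq_one_iff.1 hsq with h | h
    · exact h
    · exfalso
      set f := ZMod.castHom hpn (ZMod p) with hf
      have h1 : ∀ x, f (σ (x + 1)) = - f (σ x) + f b := by
        intro x
        rw [hub' x, map_add, map_mul, h]
        ring
      have h2 : ∀ x, f (σ (x + 2)) = f (σ x) := by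
        intro x
        have h3 : x + 2 = x + 1 + 1 := by ring
        rw [h3, h1, h1]
        ring
      have h3 : ∀ (k : ℕ) (x : ZMod n), f (σ (x + 2 * k)) = f (σ x) := by
        intro k
        induction k with
        | zero => intro x; simp
        | succ k ih =>
          intro x
          have h4 : x + 2 * ((k + 1 : ℕ) : ZMod n) = x + 2 * k + 2 := by push_cast; ring
          rw [h4, h2, ih]
      obtain ⟨m, hm⟩ := hn
      have h4 : (2 : ZMod n) * ((m + 1 : ℕ) : ZMod n) = 1 := by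
        have h5 : ((n : ℕ) : ZMod n) = 0 := ZMod.natCast_self n
        have h6 : ((2 * m + 1 : ℕ) : ZMod n) = 0 := by rw [← hm]; exact h5
        push_cast at h6 ⊢
        linear_combination h6
      have h5 : ∀ x, 2 * f (σ x) = f b := by
        intro x
        have h6 := h3 (m + 1) x
        rw [h4, h1] at h6
        linear_combination -h6
      obtain ⟨x0, hx0⟩ := σ.surjective 0
      obtain ⟨x1, hx1⟩ := σ.surjective 1
      have h6 := h5 x0
      have h7 := h5 x1
      rw [hx0, map_zero, mul_zero] at h6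
      rw [hx1, map_one, mul_one] at h7
      exact htwo p hp hpn (h7.trans h6.symm)
  -- `u + 1` is a unit
  have hunit : IsUnit ((u : ZMod n) + 1) := by
    set y := (u : ZMod n) + 1 with hy
    have hyv : y = ((y.val : ℕ) : ZMod n) := (ZMod.natCast_zmod_val y).symm
    rw [hyv, ZMod.isUnit_iff_coprime]
    by_contra hnc
    obtain ⟨p, hp, hpy, hpn⟩ := Nat.Prime.not_coprime_iff_dvd.1 hnc
    have h1 : ZMod.castHom hpn (ZMod p) y = ((y.val : ℕ) : ZMod p) := by
      rw [ZMod.castHom_apply, ZMod.natCast_val]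
    rw [(ZMod.natCast_eq_zero_iff _ _).2 hpy, hy, map_add, hu1 p hp hpn, map_one] at h1
    exact htwo p hp hpn (by rw [← h1]; norm_num)
  have hu_one : (u : ZMod n) = 1 := by
    have h1 : ((u : ZMod n) + 1) * ((u : ZMod n) - 1) = 0 := by linear_combination hu2
    have h2 := (IsUnit.mul_right_eq_zero hunit).1 h1
    exact sub_eq_zero.1 h2
  have hlin : ∀ x, σ x = b * x + σ 0 := by
    have h1 : ∀ k : ℕ, σ (k : ZMod n) = b * (k : ZMod n) + σ 0 := by
      intro k
      induction k with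
      | zero => simp
      | succ k ih =>
        push_cast
        rw [hub', ih, hu_one]
        ring
    intro x
    have h2 := h1 x.val
    rw [ZMod.natCast_zmod_val] at h2
    exact h2
  have hb : IsUnit b := by
    obtain ⟨x, hx⟩ := σ.surjective (σ 0 + 1)
    have h1 := hlin x
    rw [hx] at h1
    have h2 : b * x = 1 := by linear_combination -h1
    exact IsUnit.of_mul_eq_one x h2
  obtain ⟨b', rfl⟩ := hb
  exact ⟨b', σ 0, hlin⟩

end Pool.Agent.Results.MP_72c4d1_al.NaryCosetsAffine
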